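import Pool.Agent.Lib.MP_b5021c_nt.IfaceKV
import Pool.Agent.Lib.MP_b5021c_nt.KE.H96.Step
import Pool.Agent.Lib.MP_b5021c_nt.KO.H12.Kost

/-!
# MP_b5021c_nt, all `θ`, K EVEN without levels: assembly (row KV_ASM) and the induction step
-/

namespace Pool.Agent.B5.KV

open scoped LaurentPolynomial
open Polynomial
open Pool.Agent.B5.KE
open Pool.Agent.B5.Nr.Sch
open Pool.Agent.B5.H61 (CuspS)
open Pool.Agent.B5.Nr (TrezS)

/-- The package `Kd` of a minimal counterexample. -/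
theorem kd_of (hRkU : RkUSS) (hE2 : E2S) (hLmn : LMNS) (hMm : MmulS) (hMV : MVS) (hE1 : E1S)
    (hPc : PCZS) (hClp : ClpS) (hC0 : Coeff0S) (hG0 : G0S) (hI1 : Inj1S) (hRk : RkS)
    (hFD : FDS) (hWW : WWfS) (hRF : RayFacS) (hMug : MugS) (hMco : McoS) (hCu : CuspS)
    (hSf : SfzS) (hTr : TrezS) (hEvz : EvzS) (hWu : WuS) (hWe : WeS) (hCe : CeS) (hTsb : TsbS)
    (hTsa : TsaS) {P L : Type} [Fintype P] [DecidableEq P] [AddCommGroup L]
    [Module.Free ℤ L] [Module.Finite ℤ L] {phi : L →+ (P → ℤ)} {D : AO ℤ L} {q : ℤ[X]} {a : ℝ}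
    {j : ℕ} (H : Cex phi D q a j) (hm : MinD a⁻¹ phi D) :
    ∃ (F : L → ℤ[X]) (e : L → (RO ℤ)ˣ), Kd phi D q a j F e := by
  have h2 : 2 ≤ Module.finrank ℤ L := by
    have h3 := H.fr
    have h4 := H.hj
    omega
  have hall : ∀ S : L, ∃ (f : ℤ[X]) (e : (RO ℤ)ˣ), Ray D S → RN D S q f e a := by
    intro S
    by_cases hS : Ray D S
    · obtain ⟨f, e, he⟩ := ray_norm hE2 H.fp.dd h2 H.h0 H.hq hS
      exact ⟨f, e, fun _ => he⟩
    · exact ⟨0, 1, fun h => absurd h hS⟩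
  choose F e hFe using hall
  refine ⟨F, e, H, hm, hFe, ?_, ?_⟩
  · intro S hS
    exact H.outU hRkU hE2 hMm hMV hE1 hPc hClp hFD hSf hTr hWu hWe hCe hTsb hS (hFe S hS)
  · intro S S1 hM
    exact H.pkg hRkU hLmn hMm hMV hE1 hPc hClp hC0 hG0 hI1 hRk hFD hWW hRF hMug hMco hCu hSf hTr
      hEvz hCe hTsa (hFe S hM.r0) hM

/-- (KV_ASM) No minimal counterexample. -/
theorem kva (hRkU : RkUSS) (hE2 : E2S) (hLmn : LMNS) (hMm : MmulS) (hMV : MVS) (hE1 : E1S)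
    (hPc : PCZS) (hClp : ClpS) (hC0 : Coeff0S) (hG0 : G0S) (hI1 : Inj1S) (hRk : RkS)
    (hFD : FDS) (hWW : WWfS) (hRF : RayFacS) (hMug : MugS) (hMco : McoS) (hCu : CuspS)
    (hSf : SfzS) (hTr : TrezS) (hEvz : EvzS) (hWu : WuS) (hWe : WeS) (hCe : CeS) (hTsb : TsbS)
    (hTsa : TsaS) (hd : KvdS) (hk : KvkS) (hz : KvzS) : KvaS := by
  intro P L _ _ _ _ _ phi D q a j H hm
  obtain ⟨F, e, hK⟩ := kd_of hRkU hE2 hLmn hMm hMV hE1 hPc hClp hC0 hG0 hI1 hRk hFD hWW hRF hMug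
    hMco hCu hSf hTr hEvz hWu hWe hCe hTsb hTsa H hm
  obtain ⟨S, S1, hM, hnu⟩ := hd P L phi D q a j F e hK
  obtain ⟨Q, K, _, _, _, _, _, psi, G, T, eta, u, E, hKg⟩ := hk P L phi D q a j F e S S1 hK hM hnu
  exact hz Q K psi G T eta u q (F S) E a j hKg

/-- (KV_ST) THE INDUCTION STEP FOR EVEN RANK. -/
theorem kest (hE2 : E2S) (hMin : MinSS) (hMono : MonoS) (hKva : KvaS) : KeStS := by
  intro j hj hIH θ P L _ _ _ _ _ phi D hD hP hfr
  refine ⟨fun _ => ?_, fun ho => ?_⟩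
  swap
  · rw [Nat.odd_iff] at ho
    omega
  by_contra hcon
  push Not at hcon
  have hθ2 : 2 ≤ θ := by
    obtain ⟨P', L', _, _, _, _, _, phi', D', hD', hf', hP'⟩ := H78.Mono.mono_to hMono ℤ θ 3
      (by norm_num) (2 * j - 3) P L phi D hD hP (by omega)
    have h1 := (hIH 3 (by omega) θ P' L' phi' D' hD' hP' hf').2 (by decide)
    norm_num at h1
    linarith
  obtain ⟨P1, L1, _, _, _, _, _, phi1, D1, hm, hf1⟩ := hMin ℤ P L phi D θ hD (by omega) hP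
  obtain ⟨D2, q, hm2, h0, hq⟩ := KO.norm_min hE2 hm (by omega)
  have ha : θ⁻¹ ≤ 1 / 2 := by
    rw [one_div]
    exact inv_anti₀ (by norm_num) hθ2
  refine hKva P1 L1 phi1 D2 q θ⁻¹ j ⟨hm2.fp, h0, hq, ha, hj, by omega, hIH, ?_⟩ hm2
  rw [inv_inv]
  push_cast at hcon
  rw [one_div] at hcon
  linarith

end Pool.Agent.B5.KV
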